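import Mathlib
import Pool.Agent.H11.Mst2

namespace Pool.Agent.Results.MP_620d87_co.NoSwitch

open Matrix Complex

open Classical in
/-- The skew adjacency matrix of the oriented graph with arc relation `Arc`. -/
noncomputable def adj {V : Type} (Arc : V → V → Prop) : Matrix V V ℂ :=
  fun a b => if Arc a b then 1 else if Arc b a then -1 else 0

/-- Perfect state transfer from `a` to `b` for the walk `U(t) = exp(t A)`. -/
def PST {V : Type} [Fintype V] [DecidableEq V] (Arc : V → V → Prop) (a b : V) : Prop :=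
  ∃ (t : ℝ) (l : ℂ), ‖l‖ = 1 ∧
    NormedSpace.exp ((t : ℂ) • adj Arc) *ᵥ Pi.single a 1 = l • Pi.single b 1

/-- The signed permutation matrix `P D` sending `e_j` to `ε j • e_(σ j)`. -/
def signedPerm {V : Type} [DecidableEq V] (σ : Equiv.Perm V) (ε : V → ℂ) : Matrix V V ℂ :=
  fun i j => if i = σ j then ε j else 0

/-- Multiple state transfer on `S` arises from a switching automorphism. -/
def Arises {V : Type} [Fintype V] [DecidableEq V] (Arc : V → V → Prop) (S : Finset V) : Prop :=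
  ∃ (σ : Equiv.Perm V) (ε : V → ℂ), (∀ v, ε v = 1 ∨ ε v = -1) ∧
    (signedPerm σ ε)ᵀ * adj Arc * signedPerm σ ε = adj Arc ∧
    ∃ a ∈ S, PST Arc a (σ a) ∧ ∀ b ∈ S, ∃ k : ℕ, b = (σ ^ k) a

theorem result : ∃ (V : Type) (_ : Fintype V) (_ : DecidableEq V) (Arc : V → V → Prop),
    (∀ x y, Arc x y → ¬ Arc y x) ∧ ∃ S : Finset V, 3 ≤ S.card ∧
      (∀ a ∈ S, ∀ b ∈ S, a ≠ b → PST Arc a b) ∧ ¬ Arises Arc S := by
  obtain ⟨V, i1, i2, Arc, vtx, asym, inj, h, κ, w, μ, X, k0, w0, hX, hXv⟩ :=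
    Pool.Agent.H11.Mst2.main2 3
  refine ⟨V, i1, i2, Arc, asym, Finset.univ.image vtx,
    by rw [Finset.card_image_of_injective _ inj]; simp, ?_, ?_⟩
  · intro a ha b hb _
    obtain ⟨p, -, rfl⟩ := Finset.mem_image.1 ha
    obtain ⟨q, -, rfl⟩ := Finset.mem_image.1 hb
    obtain ⟨τ, e⟩ := h p q
    exact ⟨τ, 1, by simp, by rw [one_smul]; exact e⟩
  rintro ⟨σ, ε, hε, hA, a, ha, ⟨t, l, hl, ht⟩, hS⟩
  obtain ⟨p, -, rfl⟩ := Finset.mem_image.1 ha
  have l0 : l ≠ 0 := fun e => by simp [e] at hl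
  have sk : (adj Arc)ᵀ = -adj Arc := by
    ext i j
    rw [transpose_apply, Matrix.neg_apply]
    unfold adj
    by_cases h1 : Arc i j
    · simp [h1, asym i j h1]
    · by_cases h2 : Arc j i <;> simp [h1, h2]
  have e2 : ∀ v, ε v * ε v = 1 := fun v => by rcases hε v with e | e <;> simp [e]
  have ent : ∀ i j, ε i * adj Arc (σ i) (σ j) * ε j = adj Arc i j := by
    intro i j
    have := congrFun (congrFun hA i) j
    simpa [Matrix.mul_apply, signedPerm] using this
  have s1 : ∀ Y : V → ℂ, adj Arc *ᵥ Y = μ • Y →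
      Y (σ (vtx p)) = exp (t * -μ) / l * Y (vtx p) := by
    intro Y hY
    have e := congrArg (Y ⬝ᵥ ·) ht
    simp only [dotProduct_mulVec] at e
    rw [← mulVec_transpose, ← Matrix.exp_transpose,
      Pool.Agent.H11.Mst2.exp_eigen _ Y (t * -μ) (by
        rw [transpose_smul, sk, smul_mulVec, neg_mulVec, hY, ← neg_smul, smul_smul])] at e
    simp at e
    field_simp
    rw [e]; ring
  have s2 : ∀ Y : V → ℂ, adj Arc *ᵥ Y = μ • Y →
      adj Arc *ᵥ (fun j => ε j * Y (σ j)) = μ • fun j => ε j * Y (σ j) := by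
    intro Y hY
    funext i
    have e := congrFun hY (σ i)
    simp only [mulVec, dotProduct, Pi.smul_apply, smul_eq_mul] at e ⊢
    rw [← Equiv.sum_comp σ] at e
    rw [mul_left_comm, ← e, Finset.mul_sum]
    refine Finset.sum_congr rfl fun j _ => ?_
    rw [← ent i j]
    linear_combination (ε i * adj Arc (σ i) (σ j) * Y (σ j)) * e2 j
  have s3 : ∀ k : ℕ, ∀ Y : V → ℂ, adj Arc *ᵥ Y = μ • Y →
      Y ((σ ^ k) (vtx p)) ^ 2 = ((exp (t * -μ) / l) ^ 2) ^ k * Y (vtx p) ^ 2 := by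
    intro k
    induction k with
    | zero => intro Y _; simp
    | succ k ih =>
      intro Y hY
      have := ih _ (s2 Y hY)
      simp only [mul_pow, pow_two (ε _), e2, one_mul] at this
      rw [pow_succ' σ, Equiv.Perm.mul_apply, this, s1 Y hY]; ring
  have z0 : Pool.Agent.H11.Mst2.ζ ≠ 0 := fun e => by
    simpa [e] using Pool.Agent.H11.Mst2.ζ_norm
  have X0 : X (vtx p) ≠ 0 := by
    rw [hXv]; exact mul_ne_zero w0 (pow_ne_zero _ (pow_ne_zero _ z0))
  have r1 := s3 (orderOf σ) X hX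
  rw [pow_orderOf_eq_one, Equiv.Perm.one_apply] at r1
  have r2 : ((exp (t * -μ) / l) ^ 2) ^ orderOf σ = 1 :=
    mul_right_cancel₀ (pow_ne_zero 2 X0) (r1.symm.trans (one_mul _).symm)
  obtain ⟨q, hq⟩ := exists_ne p
  obtain ⟨k, hk⟩ := hS (vtx q) (Finset.mem_image.2 ⟨q, Finset.mem_univ _, rfl⟩)
  have r3 := congrArg (· ^ orderOf σ) (s3 k X hX)
  simp only [← hk, hXv] at r3
  rw [mul_pow (_ ^ k), ← pow_mul _ k, mul_comm k, pow_mul _ _ k, r2, one_pow, one_mul] at r3
  simp only [mul_pow, ← pow_mul] at r3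
  have r4 := Pool.Agent.H11.Mst2.ζ_inj (mul_left_cancel₀ (pow_ne_zero _ w0) r3)
  have N0 := orderOf_pos σ
  have r5 : 0 < κ * (2 * orderOf σ) := by positivity
  apply hq
  apply Fin.ext
  apply Nat.eq_of_mul_eq_mul_right r5
  simpa [mul_assoc] using r4

end Pool.Agent.Results.MP_620d87_co.NoSwitch
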